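import Mathlib

/-!
# ETH glue (MP_bca398_lc)

Let `tm` be a machine with the property of the frozen statement S15289 (a dualization machine with
polynomial bound `p`). We run it with a clock on the code of a hypergraph `E` and look at its output. If
the clock is at least `p (|code E| + (n+1)^(s+1))`, then: some minimal transversal has more than `s`
elements iff the machine does not halt in time or its output contains a row with more than `s` entries
`some true`. The main theorem is `glue`.
-/

set_option autoImplicit false

namespace Pool.Agent.Helper64.ETH

open Turing StateTransition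

/-! ## Codes -/

/-- The rows of a list of sets, as in the frozen statement. -/
def rowsCode {n : ℕ} (L : List (Finset (Fin n))) : List (Option Bool) :=
  (L.map (fun T : Finset (Fin n) =>
    List.ofFn (fun i : Fin n => some (decide (i ∈ T))) ++ [none])).flatten

/-- The code of a hypergraph, as in the frozen statement. -/
def inCode (n : ℕ) (E : List (Finset (Fin n))) : List (Option Bool) :=
  List.replicate n (some true) ++ [none] ++ rowsCode E

/-- The minimal hitting sets of `E`. -/
def MinTr {n : ℕ} (E : List (Finset (Fin n))) (T : Finset (Fin n)) : Prop :=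
  Minimal (fun S : Finset (Fin n) => ∀ e ∈ E, (S ∩ e).Nonempty) T

/-- `tm` is a dualization machine with time bound `T` (as a function of input plus output length): for
`T = p.eval` this is the frozen statement S15289 for `tm`, `eIn`, `eOut`, `p`. -/
def Dual (tm : FinTM2) (eIn : tm.Γ tm.k₀ ≃ Option Bool) (eOut : tm.Γ tm.k₁ ≃ Option Bool)
    (T : ℕ → ℕ) : Prop :=
  ∀ n : ℕ, ∀ E : List (Finset (Fin n)),
    ∃ L : List (Finset (Fin n)),
      L.Nodup ∧
      (∀ T : Finset (Fin n),
        T ∈ L ↔ Minimal (fun S : Finset (Fin n) => ∀ e ∈ E, (S ∩ e).Nonempty) T) ∧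
      Nonempty (EvalsToInTime tm.step
        (initList tm
          (List.map (fun b : Option Bool => eIn.symm b)
            (List.replicate n (some true) ++ [none] ++
              (E.map (fun T : Finset (Fin n) =>
                List.ofFn (fun i : Fin n => some (decide (i ∈ T))) ++ [none])).flatten)))
        (some (haltList tm
          (List.map (fun b : Option Bool => eOut.symm b)
            (L.map (fun T : Finset (Fin n) =>
              List.ofFn (fun i : Fin n => some (decide (i ∈ T))) ++ [none])).flatten)))
        (T
          ((List.replicate n (some true) ++ [none] ++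
            (E.map (fun T : Finset (Fin n) =>
              List.ofFn (fun i : Fin n => some (decide (i ∈ T))) ++ [none])).flatten).length +
           (L.map (fun T : Finset (Fin n) =>
              List.ofFn (fun i : Fin n => some (decide (i ∈ T))) ++ [none])).flatten.length)))

/-! ## The scanner -/

/-- One step of the scanner: (number of `some true` in the current row, flag). -/
def scan (s : ℕ) (st : ℕ × Bool) (a : Option Bool) : ℕ × Bool :=
  match a with
  | none => (0, st.2)
  | some true => (st.1 + 1, st.2 || decide (s ≤ st.1))
  | some false => st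

/-- Some row of the word has more than `s` entries `some true`. -/
def bigRow (s : ℕ) (w : List (Option Bool)) : Bool := (w.foldl (scan s) (0, false)).2

theorem scan_row (s : ℕ) (l : List Bool) : ∀ (c : ℕ) (b : Bool), (s < c → b = true) →
    (l.map some).foldl (scan s) (c, b) = (c + l.count true, b || decide (s < c + l.count true)) := by
  induction l with
  | nil =>
    intro c b hb
    by_cases h : s < c
    · simp [hb h]
    · simp [h]
  | cons a l ih =>
    intro c b hb
    rw [List.map_cons, List.foldl_cons]
    cases a with
    | false =>
      rw [show scan s (c, b) (some false) = (c, b) from rfl, ih c b hb, List.count_cons_of_ne (by simp)]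
    | true =>
      rw [show scan s (c, b) (some true) = (c + 1, b || decide (s ≤ c)) from rfl,
        ih (c + 1) _ (by intro h; simp; right; omega), List.count_cons_self,
        show c + 1 + l.count true = c + (l.count true + 1) by ring]
      by_cases h : s ≤ c
      · have : s < c + (l.count true + 1) := by omega
        simp [h, this]
      · simp [h]

theorem count_ofFn {n : ℕ} (T : Finset (Fin n)) :
    (List.ofFn (fun i : Fin n => decide (i ∈ T))).count true = T.card := by
  rw [List.ofFn_eq_map, List.count, List.countP_map, List.countP_eq_length_filter]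
  have h : (T : Finset (Fin n)) = ((List.finRange n).filter (fun i => decide (i ∈ T))).toFinset := by
    ext i
    simp
  conv_rhs => rw [h]
  rw [List.toFinset_card_of_nodup ((List.nodup_finRange n).filter _)]
  congr 2
  funext i
  simp

theorem scan_rows (s : ℕ) {n : ℕ} (L : List (Finset (Fin n))) : ∀ b : Bool,
    (rowsCode L).foldl (scan s) (0, b) = (0, b || L.any (fun T => decide (s < T.card))) := by
  induction L with
  | nil =>
    intro b
    simp [rowsCode]
  | cons T L ih =>
    intro b
    have e : rowsCode (T :: L) =
        ((List.ofFn (fun i : Fin n => decide (i ∈ T))).map some ++ [none]) ++ rowsCode L := by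
      simp [rowsCode, List.map_ofFn, Function.comp_def]
    rw [e, List.foldl_append, List.foldl_append, scan_row s _ 0 b (by omega), count_ofFn,
      List.foldl_cons, List.foldl_nil]
    rw [show scan s (0 + T.card, b || decide (s < 0 + T.card)) none =
      (0, b || decide (s < 0 + T.card)) from rfl, ih, zero_add, List.any_cons, Bool.or_assoc]

theorem bigRow_rows (s : ℕ) {n : ℕ} (L : List (Finset (Fin n))) :
    bigRow s (rowsCode L) = true ↔ ∃ T ∈ L, s < T.card := by
  rw [bigRow, scan_rows]
  simp

/-! ## Counting -/

theorem length_rows {n : ℕ} (L : List (Finset (Fin n))) :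
    (rowsCode L).length = L.length * (n + 1) := by
  induction L with
  | nil => simp [rowsCode]
  | cons T L ih =>
    have e : rowsCode (T :: L) =
        (List.ofFn (fun i : Fin n => some (decide (i ∈ T))) ++ [none]) ++ rowsCode L := by
      simp [rowsCode]
    rw [e, List.length_append, ih, List.length_append, List.length_ofFn, List.length_singleton,
      List.length_cons]
    ring

theorem length_inCode (n : ℕ) (E : List (Finset (Fin n))) :
    (inCode n E).length = n + 1 + E.length * (n + 1) := by
  rw [inCode, List.length_append, length_rows]
  simp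

/-- The number of sets with at most `s` elements is at most `(n+1)^s`. -/
theorem card_small (n s : ℕ) :
    (Finset.univ.filter (fun T : Finset (Fin n) => T.card ≤ s)).card ≤ (n + 1) ^ s := by
  classical
  have h := Finset.card_le_card_of_surjOn (s := (Finset.univ : Finset (Fin s → Option (Fin n))))
    (t := Finset.univ.filter (fun T : Finset (Fin n) => T.card ≤ s))
    (fun f => Finset.eraseNone (Finset.univ.image f)) ?_
  · rw [Finset.card_univ, Fintype.card_fun, Fintype.card_option, Fintype.card_fin,
      Fintype.card_fin] at h
    exact h
  · intro T hT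
    have hT' : T.card ≤ s := by simpa using hT
    refine ⟨fun i => T.toList[(i : ℕ)]?, Finset.mem_coe.2 (Finset.mem_univ _), ?_⟩
    ext x
    rw [Finset.mem_eraseNone, Finset.mem_image]
    constructor
    · rintro ⟨i, -, hi⟩
      exact Finset.mem_toList.1 (List.mem_of_getElem? hi)
    · intro hx
      obtain ⟨i, hi, e⟩ := List.mem_iff_getElem.1 (Finset.mem_toList.2 hx)
      have hi' : i < s := by
        rw [Finset.length_toList] at hi
        omega
      exact ⟨⟨i, hi'⟩, Finset.mem_univ _, by simp [List.getElem?_eq_getElem hi, e]⟩

theorem length_le {n s : ℕ} {L : List (Finset (Fin n))} (hL : L.Nodup)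
    (h : ∀ T ∈ L, T.card ≤ s) : L.length ≤ (n + 1) ^ s := by
  classical
  rw [← List.toFinset_card_of_nodup hL]
  refine (Finset.card_le_card ?_).trans (card_small n s)
  intro T hT
  rw [List.mem_toFinset] at hT
  exact Finset.mem_filter.2 ⟨Finset.mem_univ _, h T hT⟩

/-! ## The clocked run -/

section Run

variable {σ : Type*}

/-- Step, where a halted state stays. -/
def stay (f : σ → Option σ) (c : σ) : σ := (f c).getD c

theorem stay_iter (f : σ → Option σ) : ∀ (k : ℕ) (c b : σ),
    (flip bind f)^[k] (some c) = some b → (stay f)^[k] c = b := by
  intro k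
  induction k with
  | zero =>
    intro c b h
    simpa using h
  | succ k ih =>
    intro c b h
    rw [Function.iterate_succ_apply'] at h
    rw [Function.iterate_succ_apply']
    cases hx : (flip bind f)^[k] (some c) with
    | none =>
      rw [hx] at h
      simp [flip] at h
    | some a =>
      rw [hx] at h
      rw [ih c a hx]
      have h' : f a = some b := by simpa [flip] using h
      simp [stay, h']

theorem stay_le (f : σ → Option σ) {k : ℕ} {c b : σ}
    (h : (flip bind f)^[k] (some c) = some b) (hb : f b = none) {t : ℕ} (ht : k ≤ t) :
    (stay f)^[t] c = b := by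
  obtain ⟨j, rfl⟩ := Nat.exists_eq_add_of_le ht
  rw [add_comm, Function.iterate_add_apply, stay_iter f k c b h]
  have hfix : stay f b = b := by simp [stay, hb]
  exact Function.iterate_fixed hfix j

theorem stay_lt (f : σ → Option σ) {k : ℕ} {c b : σ}
    (h : (flip bind f)^[k] (some c) = some b) {t : ℕ} (ht : t < k) :
    f ((stay f)^[t] c) ≠ none := by
  obtain ⟨j, rfl⟩ := Nat.exists_eq_add_of_lt ht
  have e : (flip bind f)^[j] ((flip bind f)^[t + 1] (some c)) = some b := by
    rw [← Function.iterate_add_apply]
    rw [show j + (t + 1) = t + j + 1 by ring]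
    exact h
  have hnone : ∀ j : ℕ, (flip bind f)^[j] (none : Option σ) = none := by
    intro j
    induction j with
    | zero => rfl
    | succ j ih =>
      rw [Function.iterate_succ_apply', ih]
      rfl
  rw [Function.iterate_succ_apply'] at e
  cases hx : (flip bind f)^[t] (some c) with
  | none =>
    rw [hx, show flip bind f (none : Option σ) = none from rfl, hnone] at e
    exact absurd e (by simp)
  | some a =>
    rw [stay_iter f t c a hx]
    intro hf
    rw [hx, show flip bind f (some a) = f a from rfl, hf, hnone] at e
    exact absurd e (by simp)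

end Run

/-- The output of the run of `tm` with clock `t`: the stack `k₁` of the configuration if the machine
has halted after `t` steps, and `none` otherwise. -/
def clockOut (tm : FinTM2) (c : tm.Cfg) (t : ℕ) : Option (List (tm.Γ tm.k₁)) :=
  match ((stay tm.step)^[t] c).l with
  | none => some (((stay tm.step)^[t] c).stk tm.k₁)
  | some _ => none

theorem step_none_iff (tm : FinTM2) (c : tm.Cfg) : tm.step c = none ↔ c.l = none := by
  obtain ⟨l, v, S⟩ := c
  cases l with
  | none => exact iff_of_true rfl rfl
  | some l => exact iff_of_false (fun h => by cases h) (fun h => by cases h)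

theorem haltList_l (tm : FinTM2) (u : List (tm.Γ tm.k₁)) : (haltList tm u).l = none := rfl

theorem haltList_stk (tm : FinTM2) (u : List (tm.Γ tm.k₁)) : (haltList tm u).stk tm.k₁ = u := by
  simp [haltList]

theorem clockOut_le (tm : FinTM2) {c : tm.Cfg} {u : List (tm.Γ tm.k₁)} {m : ℕ}
    (h : EvalsToInTime tm.step c (some (haltList tm u)) m) {t : ℕ} (ht : m ≤ t) :
    clockOut tm c t = some u := by
  have e := stay_le tm.step h.evals_in_steps ((step_none_iff tm _).2 (haltList_l tm u))
    (h.steps_le_m.trans ht)
  rw [clockOut, e, haltList_l]
  simp only [haltList_stk]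

theorem clockOut_eq (tm : FinTM2) {c : tm.Cfg} {u : List (tm.Γ tm.k₁)} {m : ℕ}
    (h : EvalsToInTime tm.step c (some (haltList tm u)) m) {t : ℕ} {v : List (tm.Γ tm.k₁)}
    (hv : clockOut tm c t = some v) : v = u := by
  by_cases ht : h.steps ≤ t
  · have e := stay_le tm.step h.evals_in_steps ((step_none_iff tm _).2 (haltList_l tm u)) ht
    rw [clockOut, e, haltList_l] at hv
    simp only [haltList_stk, Option.some.injEq] at hv
    exact hv.symm
  · have e := stay_lt tm.step h.evals_in_steps (not_le.1 ht)
    rw [Ne, step_none_iff] at e
    rw [clockOut] at hv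
    cases hl : ((stay tm.step)^[t] c).l with
    | none => exact absurd hl e
    | some l =>
      rw [hl] at hv
      exact absurd hv (by simp)

theorem eval_mono (p : Polynomial ℕ) : Monotone (fun x : ℕ => p.eval x) := by
  intro a b h
  show p.eval a ≤ p.eval b
  rw [Polynomial.eval_eq_sum_range, Polynomial.eval_eq_sum_range]
  exact Finset.sum_le_sum fun i _ => Nat.mul_le_mul_left _ (Nat.pow_le_pow_left h i)

/-- The property of a clock function `ck` for the machine `tm` (the interface of the clock module):
`ck u t` is the output on the input word `u` if `tm` halts within `t` steps, and `none` otherwise. -/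
def ClockSpec (tm : FinTM2) (eIn : tm.Γ tm.k₀ ≃ Option Bool) (eOut : tm.Γ tm.k₁ ≃ Option Bool)
    (ck : List (Option Bool) → ℕ → Option (List (Option Bool))) : Prop :=
  ∀ (u v : List (Option Bool)) (s t : ℕ),
    Nonempty (EvalsToInTime tm.step (initList tm (u.map (fun b => eIn.symm b)))
      (some (haltList tm (v.map (fun b => eOut.symm b)))) s) →
    (s ≤ t → ck u t = some v) ∧ (ck u t = none ∨ ck u t = some v)

theorem clockOut_spec (tm : FinTM2) (eIn : tm.Γ tm.k₀ ≃ Option Bool)
    (eOut : tm.Γ tm.k₁ ≃ Option Bool) :
    ClockSpec tm eIn eOut (fun u t =>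
      (clockOut tm (initList tm (u.map (fun b => eIn.symm b))) t).map
        (fun v => v.map (fun b => eOut b))) := by
  rintro u v s t ⟨h⟩
  have hback : (v.map (fun b => eOut.symm b)).map (fun b => eOut b) = v := by
    rw [List.map_map]
    simp [Function.comp_def]
  refine ⟨fun hs => ?_, ?_⟩
  · show (clockOut tm (initList tm (u.map (fun b => eIn.symm b))) t).map _ = some v
    rw [clockOut_le tm h hs, Option.map_some, hback]
  · cases hc : clockOut tm (initList tm (u.map (fun b => eIn.symm b))) t with
    | none => exact Or.inl (by simp [hc])
    | some w =>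
      right
      have hw := clockOut_eq tm h hc
      subst hw
      simp only [hc, Option.map_some, hback]

/-- The answer read off the output of the clock: `true` iff the clock ran out or the output has a row
with more than `s` entries `some true`. -/
def verdict (s : ℕ) (o : Option (List (Option Bool))) : Bool :=
  match o with
  | none => true
  | some u => bigRow s u

/-- **Glue**: the clocked run decides whether some minimal transversal has more than `s` elements. -/
theorem glue {tm : FinTM2} {eIn : tm.Γ tm.k₀ ≃ Option Bool} {eOut : tm.Γ tm.k₁ ≃ Option Bool}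
    {T : ℕ → ℕ} (hD : Dual tm eIn eOut T) (hT : Monotone T)
    {ck : List (Option Bool) → ℕ → Option (List (Option Bool))} (hck : ClockSpec tm eIn eOut ck)
    {n : ℕ} (E : List (Finset (Fin n))) {s t : ℕ}
    (ht : T ((inCode n E).length + (n + 1) ^ (s + 1)) ≤ t) :
    verdict s (ck (inCode n E) t) = true ↔
      ∃ T : Finset (Fin n),
        Minimal (fun S : Finset (Fin n) => ∀ e ∈ E, (S ∩ e).Nonempty) T ∧ s < T.card := by
  obtain ⟨L, hL, hmem, hev⟩ := hD n E
  obtain ⟨h1, h2⟩ := hck (inCode n E) (rowsCode L) _ t hev
  constructor
  · intro h
    by_contra hno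
    push Not at hno
    have hsmall : ∀ T ∈ L, T.card ≤ s := fun T hT => hno T ((hmem T).1 hT)
    have hlen : (rowsCode L).length ≤ (n + 1) ^ (s + 1) := by
      rw [length_rows, pow_succ]
      exact Nat.mul_le_mul_right _ (length_le hL hsmall)
    have hc := h1 ((hT (Nat.add_le_add_left hlen (inCode n E).length)).trans ht)
    rw [hc] at h
    obtain ⟨T, hT, hc'⟩ := (bigRow_rows s L).1 h
    exact absurd (hsmall T hT) (by omega)
  · rintro ⟨T, hT, hs⟩
    rcases h2 with h2 | h2
    · rw [h2]
      rfl
    · rw [h2]
      exact (bigRow_rows s L).2 ⟨T, (hmem T).2 hT, hs⟩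

end Pool.Agent.Helper64.ETH
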