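import Pool.Agent.Helper68.PT.Ext2
import Pool.Agent.Helper64.ETH.Glue

/-!
# ETH: the test of the output is computable in polynomial time (MP_bca398_lc)
-/

set_option autoImplicit false

namespace Pool.Agent.Helper64.ETH

open Pool.Agent.Helper36.PT

theorem scan_fst_le (s : ℕ) (w : List (Option Bool)) : ∀ st : ℕ × Bool,
    (w.foldl (scan s) st).1 ≤ st.1 + w.length := by
  induction w with
  | nil => simp
  | cons a w ih =>
    intro st
    rw [List.foldl_cons]
    refine (ih _).trans ?_
    rw [List.length_cons]
    cases a with
    | none =>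
      show 0 + w.length ≤ _
      omega
    | some b =>
      cases b with
      | false =>
        show st.1 + w.length ≤ _
        omega
      | true =>
        show st.1 + 1 + w.length ≤ _
        omega

theorem scan_pt {α : Type} [Enc α] {s : α → ℕ} (hs : PolyTime s) :
    PolyTime (fun q : (α × (ℕ × Bool)) × Option Bool => scan (s q.1.1) q.1.2 q.2) := by
  have h := PolyTime.optCases (α := (α × (ℕ × Bool)) × Option Bool) (o := fun q => q.2)
    (f := fun q => ((0 : ℕ), q.1.2.2))
    (g := fun q b => bif b then (q.1.2.1 + 1, q.1.2.2 || decide (s q.1.1 ≤ q.1.2.1)) else q.1.2)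
    (by fun_prop) (by fun_prop) (by fun_prop)
  refine h.congr fun q => ?_
  obtain ⟨⟨x, c, b⟩, a⟩ := q
  cases a with
  | none => rfl
  | some a => cases a <;> rfl

/-- `bigRow` is a polynomial time function. -/
@[fun_prop]
theorem bigRow_pt {α : Type} [Enc α] {s : α → ℕ} {w : α → List (Option Bool)} (hs : PolyTime s)
    (hw : PolyTime w) : PolyTime (fun a => bigRow (s a) (w a)) := by
  have h : PolyTime (fun a => (w a).foldl (scan (s a)) ((0 : ℕ), false)) := by
    refine PolyTime.foldl (h := fun a => scan (s a)) hw (PolyTime.const _) (scan_pt hs)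
      ⟨fun a => 2 * esz (w a) + 2, ((Bdd.const 2).mul hw.bdd).add (Bdd.const 2), ?_⟩
    intro a i
    have h1 := scan_fst_le (s a) ((w a).take i) (0, false)
    have h2 : ((w a).take i).length ≤ esz (w a) :=
      (List.length_take_le' _ _).trans (length_le_esz _)
    rw [← Prod.mk.eta (p := ((w a).take i).foldl (scan (s a)) (0, false)), esz_pair, esz_nat,
      esz_bool]
    simp only [zero_add] at h1
    show _ ≤ 2 * esz (w a) + 2
    omega
  exact (PolyTime.snd.comp h).congr fun a => rfl

/-- `verdict` is a polynomial time function. -/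
@[fun_prop]
theorem verdict_pt {α : Type} [Enc α] {s : α → ℕ} {o : α → Option (List (Option Bool))}
    (hs : PolyTime s) (ho : PolyTime o) : PolyTime (fun a => verdict (s a) (o a)) := by
  have h := PolyTime.optCases (f := fun _ => true) (g := fun a u => bigRow (s a) u) ho
    (PolyTime.const true) (by fun_prop)
  refine h.congr fun a => ?_
  unfold verdict
  cases o a <;> rfl

end Pool.Agent.Helper64.ETH
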