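import Pool.Agent.Helper50.ETH.Clock
import Pool.Agent.Helper68.ETH.Word
import Pool.Agent.Helper16.ETH.Params
import Pool.Agent.Helper64.ETH.Test

/-!
# ETH: the answer function (MP_bca398_lc)

`ans` builds the word of the hypergraph of the instance, runs the assumed dualization machine with the
clock `P` and reads off the verdict. `ans_pt`: it is a polynomial time function (of the instance and the
budget `P` in unary). `ans_iff`: it decides satisfiability as soon as `P ≥ bound n` and
`P ≥ T (bound n)`, where `T` is the time bound of the assumed machine.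
-/

set_option autoImplicit false

namespace Pool.Agent.Helper64.ETH

open Turing StateTransition Pool.Agent.Helper36.PT Pool.Agent.Helper50.ETH
open Pool.Agent.Helper68.ETH (EE word_eq word_length)

/-- The answer on the instance `x.1` with the budget `x.2`. -/
noncomputable def ans (tm : FinTM2) (eIn : tm.Γ tm.k₀ ≃ Option Bool)
    (eOut : tm.Γ tm.k₁ ≃ Option Bool)
    (wordT : (ℕ × List (List (Option Bool))) × ℕ → List (Option Bool))
    (x : (ℕ × List (List (Option Bool))) × ℕ) : Bool :=
  verdict (2 * kap x.1.1) (clock tm eIn eOut (wordT x) x.2)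

theorem ans_pt (tm : FinTM2) (eIn : tm.Γ tm.k₀ ≃ Option Bool) (eOut : tm.Γ tm.k₁ ≃ Option Bool)
    {wordT : (ℕ × List (List (Option Bool))) × ℕ → List (Option Bool)} (hk : PolyTime kap)
    (hw : PolyTime wordT) : PolyTime (ans tm eIn eOut wordT) := by
  have h1 : PolyTime (fun x : (ℕ × List (List (Option Bool))) × ℕ =>
      clock tm eIn eOut (wordT x) x.2) :=
    (clock_pt tm eIn eOut).comp (hw.pair PolyTime.snd)
  have h2 : PolyTime (fun x : (ℕ × List (List (Option Bool))) × ℕ => kap x.1.1) :=
    hk.comp (by fun_prop)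
  unfold ans
  fun_prop

/-- A dualization machine decides whether some minimal transversal of `EE n cl` has more than
`2 * kap n` elements. -/
theorem ans_big {tm : FinTM2} {eIn : tm.Γ tm.k₀ ≃ Option Bool} {eOut : tm.Γ tm.k₁ ≃ Option Bool}
    {T : ℕ → ℕ} (hD : Dual tm eIn eOut T) (hT : Monotone T)
    {wordT : (ℕ × List (List (Option Bool))) × ℕ → List (Option Bool)}
    (hwd : ∀ n cl P, bound n ≤ P → wordT ((n, cl), P) = word n cl)
    (n : ℕ) (cl : List (List (Option Bool))) {P : ℕ} (h1 : bound n ≤ P) (h2 : T (bound n) ≤ P) :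
    ans tm eIn eOut wordT ((n, cl), P) = true ↔
      ∃ S : Finset (Fin (nV n)),
        Minimal (fun S : Finset (Fin (nV n)) => ∀ e ∈ EE n cl, (S ∩ e).Nonempty) S ∧
          2 * kap n < S.card := by
  have hw : word n cl = inCode (nV n) (EE n cl) := word_eq n cl
  have hlen : (inCode (nV n) (EE n cl)).length + (nV n + 1) ^ (2 * kap n + 1) ≤ bound n := by
    rw [← hw, word_length]
    have h3 : (nV n + 1) ^ (2 * kap n + 1) ≤ (nV n + 1) ^ (2 * kap n + 2) :=
      Nat.pow_le_pow_right (Nat.succ_pos _) (Nat.le_succ _)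
    unfold bound
    omega
  have hck : ClockSpec tm eIn eOut (clock tm eIn eOut) := fun u v s t h =>
    clock_spec tm eIn eOut u v s h t
  have key := glue hD hT hck (EE n cl) (s := 2 * kap n) (t := P) ((hT hlen).trans h2)
  unfold ans
  simp only [hwd n cl P h1]
  rw [hw]
  exact key

/-- **The answer is correct.** -/
theorem ans_iff {tm : FinTM2} {eIn : tm.Γ tm.k₀ ≃ Option Bool} {eOut : tm.Γ tm.k₁ ≃ Option Bool}
    {T : ℕ → ℕ} (hD : Dual tm eIn eOut T) (hT : Monotone T)
    {wordT : (ℕ × List (List (Option Bool))) × ℕ → List (Option Bool)}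
    (hwd : ∀ n cl P, bound n ≤ P → wordT ((n, cl), P) = word n cl)
    {n : ℕ} {φ : List (Fin n → Option Bool)}
    (hsmall : ∀ S : Finset (Fin (nV n)),
      Minimal (fun S : Finset (Fin (nV n)) =>
        ∀ e ∈ EE n (φ.map List.ofFn), (S ∩ e).Nonempty) S → S.card ≤ 2 * kap n ∨ Sat φ)
    (hbig : Sat φ → ∃ S : Finset (Fin (nV n)),
      Minimal (fun S : Finset (Fin (nV n)) =>
        ∀ e ∈ EE n (φ.map List.ofFn), (S ∩ e).Nonempty) S ∧ 2 * kap n < S.card)
    {P : ℕ} (h1 : bound n ≤ P) (h2 : T (bound n) ≤ P) :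
    ans tm eIn eOut wordT ((n, φ.map List.ofFn), P) = true ↔ Sat φ := by
  rw [ans_big hD hT hwd n _ h1 h2]
  constructor
  · rintro ⟨S, hS, hc⟩
    rcases hsmall S hS with h | h
    · exact absurd h (by omega)
    · exact h
  · exact hbig

end Pool.Agent.Helper64.ETH
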