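import Pool.Agent.Helper50.ETH.Defs
import Pool.Agent.Helper68.PT.Ext2
import Pool.Agent.Helper81.VCP.Defs

/-!
# ETH: the parser of the code of a formula (MP_bca398_lc)

`prs_pt`: the parser is a polynomial time function. `prs_spec`: on the code of a formula it gives the
number of variables and the rows of the clauses.
-/

set_option autoImplicit false

namespace Pool.Agent.Helper64.ETH

open Pool.Agent.Helper36.PT Pool.Agent.Helper81.VCP
open Pool.Agent.Helper50.ETH (code)

/-- The word over `Option Bool` from its code with two bits for every symbol. -/
def sym (w : List Bool) : List (Option Bool) :=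
  (List.range (w.length / 2)).map
    (fun k => bif w.getD (2 * k) true then some (w.getD (2 * k + 1) false) else none)

/-- The position of the first separator. -/
noncomputable def prsN (u : List (Option Bool)) : ℕ :=
  mu u.length (fun i => (u.getD i (some true)).isSome = false)

/-- The parser on words over `Option Bool`. -/
noncomputable def prsU (u : List (Option Bool)) : ℕ × List (List (Option Bool)) :=
  (prsN u, (List.range (u.length / (prsN u + 1) - 1)).map (fun k =>
    (List.range (prsN u)).map (fun j => u.getD ((k + 1) * (prsN u + 1) + 1 + j) none)))

/-- The parser. -/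
noncomputable def prs (x : Word) : ℕ × List (List (Option Bool)) := prsU (sym x.w)

@[fun_prop]
theorem sym_pt {α : Type} [Enc α] {f : α → List Bool} (hf : PolyTime f) :
    PolyTime (fun a => sym (f a)) := by
  unfold sym
  fun_prop

@[fun_prop]
theorem prsN_pt {α : Type} [Enc α] {f : α → List (Option Bool)} (hf : PolyTime f) :
    PolyTime (fun a => prsN (f a)) := by
  unfold prsN
  fun_prop

theorem prsU_pt : PolyTime prsU := by
  unfold prsU
  fun_prop

theorem prs_pt : PolyTime prs := by
  have h : PolyTime (fun x : Word => sym x.w) := by fun_prop
  exact prsU_pt.comp h

theorem sym_cod (u : List (Option Bool)) : sym (u.flatMap cod) = u := by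
  have hlen : ∀ u : List (Option Bool), (u.flatMap cod).length = 2 * u.length := by
    intro u
    induction u with
    | nil => rfl
    | cons s u ih =>
      rw [List.flatMap_cons, List.length_append, ih, List.length_cons]
      cases s <;> simp [cod] <;> ring
  have hget : ∀ (u : List (Option Bool)) (k : ℕ) (hk : k < u.length),
      (bif (u.flatMap cod).getD (2 * k) true then
        some ((u.flatMap cod).getD (2 * k + 1) false) else none) = u[k] := by
    intro u
    induction u with
    | nil =>
      intro k hk
      exact absurd hk (Nat.not_lt_zero _)
    | cons s u ih =>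
      intro k hk
      rw [List.flatMap_cons]
      rcases k with _ | k
      · cases s with
        | none => rfl
        | some b => rfl
      · have e1 : 2 * (k + 1) = 2 * k + 1 + 1 := by ring
        have e2 : 2 * (k + 1) + 1 = (2 * k + 1) + 1 + 1 := by ring
        have hk' : k < u.length := by simpa using hk
        have h := ih k hk'
        rw [e2, e1]
        cases s with
        | none =>
          simp only [cod, List.cons_append, List.nil_append, List.getD_cons_succ,
            List.getElem_cons_succ]
          exact h
        | some b =>
          simp only [cod, List.cons_append, List.nil_append, List.getD_cons_succ,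
            List.getElem_cons_succ]
          exact h
  unfold sym
  rw [hlen, Nat.mul_div_cancel_left _ (by norm_num)]
  apply List.ext_getElem
  · simp
  · intro k h1 h2
    rw [List.getElem_map, List.getElem_range]
    exact hget u k h2

theorem rowsC_length {n : ℕ} (φ : List (Fin n → Option Bool)) :
    ((φ.map (fun c => some true :: List.ofFn c)).flatten).length = (n + 1) * φ.length := by
  induction φ with
  | nil => rfl
  | cons c φ ih =>
    rw [List.map_cons, List.flatten_cons, List.length_append, ih, List.length_cons,
      List.length_ofFn, List.length_cons]
    ring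

theorem code_length {n : ℕ} (φ : List (Fin n → Option Bool)) :
    (code φ).length = (n + 1) * (φ.length + 1) := by
  unfold code
  rw [List.length_append, List.length_append, List.length_replicate, List.length_singleton,
    rowsC_length]
  ring

theorem rowsC_get {n : ℕ} (φ : List (Fin n → Option Bool)) : ∀ (k j : ℕ) (hk : k < φ.length)
    (hj : j < n), ((φ.map (fun c => some true :: List.ofFn c)).flatten)[k * (n + 1) + 1 + j]? =
      some (φ[k] ⟨j, hj⟩) := by
  induction φ with
  | nil =>
    intro k j hk
    exact absurd hk (Nat.not_lt_zero _)
  | cons c φ ih =>
    intro k j hk hj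
    rw [List.map_cons, List.flatten_cons]
    have hl : (some true :: List.ofFn c).length = n + 1 := by simp
    rcases k with _ | k
    · rw [List.getElem?_append_left (by rw [hl]; omega)]
      rw [show 0 * (n + 1) + 1 + j = j + 1 by ring, List.getElem?_cons_succ]
      simp [hj]
    · rw [List.getElem?_append_right (by rw [hl]; nlinarith [Nat.zero_le (k * (n + 1))]), hl]
      have e : (k + 1) * (n + 1) + 1 + j - (n + 1) = k * (n + 1) + 1 + j := by
        have : (k + 1) * (n + 1) = k * (n + 1) + (n + 1) := by ring
        omega
      rw [e, ih k j (by simpa using hk) hj]
      simp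

theorem code_lt {n : ℕ} (φ : List (Fin n → Option Bool)) (i : ℕ) (hi : i < n) :
    (code φ)[i]? = some (some true) := by
  unfold code
  rw [List.getElem?_append_left (by simp; omega), List.getElem?_append_left (by simp; omega)]
  simp [hi]

theorem code_n {n : ℕ} (φ : List (Fin n → Option Bool)) : (code φ)[n]? = some none := by
  unfold code
  rw [List.getElem?_append_left (by simp), List.getElem?_append_right (by simp)]
  simp

theorem code_get {n : ℕ} (φ : List (Fin n → Option Bool)) (k j : ℕ) (hk : k < φ.length)
    (hj : j < n) : (code φ)[(k + 1) * (n + 1) + 1 + j]? = some (φ[k] ⟨j, hj⟩) := by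
  unfold code
  have hl : (List.replicate n (some true) ++ [none] : List (Option Bool)).length = n + 1 := by simp
  rw [List.getElem?_append_right (by rw [hl]; nlinarith [Nat.zero_le (k * (n + 1))]), hl]
  have e : (k + 1) * (n + 1) + 1 + j - (n + 1) = k * (n + 1) + 1 + j := by
    have : (k + 1) * (n + 1) = k * (n + 1) + (n + 1) := by ring
    omega
  rw [e]
  exact rowsC_get φ k j hk hj

theorem prsN_code {n : ℕ} (φ : List (Fin n → Option Bool)) : prsN (code φ) = n := by
  have hn : n < (code φ).length := by
    rw [code_length]
    nlinarith [Nat.zero_le (n * φ.length)]
  have hQ : ((code φ).getD n (some true)).isSome = false := by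
    rw [List.getD_eq_getElem?_getD, code_n]
    rfl
  have hspec := (mu_spec (n := (code φ).length)
    (Q := fun i => ((code φ).getD i (some true)).isSome = false) ⟨n, hn, hQ⟩).2
  unfold prsN
  apply le_antisymm
  · by_contra hlt
    exact mu_min (not_le.1 hlt) hQ
  · by_contra hlt
    have h := hspec
    rw [List.getD_eq_getElem?_getD, code_lt φ _ (not_le.1 hlt)] at h
    exact absurd h (by decide)

theorem prsU_code {n : ℕ} (φ : List (Fin n → Option Bool)) :
    prsU (code φ) = (n, φ.map List.ofFn) := by
  unfold prsU
  rw [prsN_code, code_length, Nat.mul_div_cancel_left _ (Nat.succ_pos n), Nat.add_sub_cancel]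
  congr 1
  apply List.ext_getElem
  · simp
  · intro k h1 h2
    have hk : k < φ.length := by simpa using h1
    rw [List.getElem_map, List.getElem_range, List.getElem_map]
    apply List.ext_getElem
    · simp
    · intro j h3 h4
      have hj : j < n := by simpa using h3
      rw [List.getElem_map, List.getElem_range, List.getElem_ofFn, List.getD_eq_getElem?_getD,
        code_get φ k j hk hj]
      rfl

/-- **Specification of the parser.** -/
theorem prs_spec (n : ℕ) (φ : List (Fin n → Option Bool)) :
    prs ⟨(code φ).flatMap cod⟩ = (n, φ.map List.ofFn) := by
  unfold prs
  rw [sym_cod, prsU_code]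

end Pool.Agent.Helper64.ETH
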